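import Mathlib
import Pool.Agent.Helper8.SipS.OffStage
import Pool.Agent.Helper8.Sip.Main

set_option autoImplicit false

/-!
# Tally oracles relative to which NP ∩ coNP has no complete language
-/

namespace Pool.Agent.Helper8.SipS

open Pool.Agent.Helper22 N487b59b3 N68a2faeb N793a5b8e Filter Topology
open Pool.Agent.Helper20.Cons (Tally)
open Pool.Agent.Helper8.Sip

variable {r : ℕ}

/-! ## The test languages -/

/-- reading a block of the second oracle of a join -/
def rd (r i : ℕ) : OracleProc (List Bool) (List Bool) where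
  clock := fun x => true :: x
  query := fun a => true :: (un (base r i a.1.length) ++ un a.2.length)
  out := fun a => a.2
  clock_poly := (isPolyTime_iff _).2 ((FP.const true).cons FP.id)
  query_poly := (isPolyTime_iff _).2 (by
    have h : FP fun a : List Bool × List Bool => un ((basePoly r i).eval a.1.length) :=
      FP.un_poly FP.fst _
    simp only [basePoly_eval] at h
    exact (FP.const true).cons (h.append (FP.un_length FP.snd)))
  out_poly := (isPolyTime_iff _).2 FP.snd

theorem rd_answers (i : ℕ) (A T : Oracle) (x : List Bool) (n : ℕ) :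
    ((rd r i).answers (J A T) x n).reverse =
      (List.range n).map fun k => T (un (base r i x.length + k)) := by
  induction n with
  | zero => rfl
  | succ n ih =>
    rw [OracleProc.answers, List.reverse_cons, ih, List.range_succ, List.map_append,
      List.map_singleton]
    have h : (J A T) ((rd r i).query (x, (rd r i).answers (J A T) x n)) =
        T (un (base r i x.length + n)) := by
      show T (un (base r i x.length) ++ un ((rd r i).answers (J A T) x n).length) = _
      rw [OracleProc.answers_length, ← un_add]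
    rw [h]

theorem rd_run (i : ℕ) (A T : Oracle) (x : List Bool) :
    ((rd r i).run (J A T) x).reverse = flag r T i x.length :: word r T i x.length := by
  show ((rd r i).answers (J A T) x (true :: x).length).reverse = _
  rw [rd_answers, List.length_cons, List.range_succ_eq_map, List.map_cons, List.map_map]
  rfl

/-- the language of the words `x` such that the flag of the block `(i, |x|)` is set and its word
is in `Y`, and the language of those for which the flag is not set or the word is in `Z` -/
theorem mem_track (A T : Oracle) (i : ℕ) (c : Bool) {Y : DecisionProblem} (hY : Y ∈ NPo A)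
    (L : DecisionProblem) (hL : ∀ x, L x = true ↔
      (c = true → flag r T i x.length = true ∧ Y (word r T i x.length) = true) ∧
      (c = false → flag r T i x.length = false ∨ Y (word r T i x.length) = true)) :
    L ∈ NPo (J A T) := by
  obtain ⟨p, R, hR⟩ := hY
  obtain ⟨N, hN⟩ := Helper49.Cons.exists_post
    (Helper49.Cons.pre (Helper49.Cons.emb R)
      (fun s : (List Bool × List Bool) × List Bool => (s.2.reverse.tail, s.1.2)) (by fun_prop))
    (fun s => if c then s.1.2.reverse.headD false && s.2 else !(s.1.2.reverse.headD false) || s.2)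
    (FP.ite (FP.const c) ((FP.headD (by fun_prop) false).and FP.snd)
      ((FP.headD (by fun_prop) false).not.or FP.snd))
  obtain ⟨K, hK⟩ := Helper49.Cons.exists_bind
    (Helper49.Cons.pre (rd r i) (fun s : List Bool × List Bool => s.1) FP.fst) N
  have hrun : ∀ x w, K.run (J A T) (x, w) = if c then flag r T i x.length &&
      R.run A (word r T i x.length, w) else !flag r T i x.length ||
      R.run A (word r T i x.length, w) := by
    intro x w
    rw [hK, hN, Helper49.Cons.pre_run, Helper49.Cons.pre_run]
    simp only [rd_run, List.tail_cons, List.headD_cons]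
    rw [show J A T = Helper20.Cons.join A T from rfl, Helper49.Cons.emb_run]
  refine ⟨p, K, fun x => ?_⟩
  rw [hL, Accepts]
  have hlen : (word r T i x.length).length = x.length := word_length _ _ _
  have hR' : Y (word r T i x.length) = true ↔ ∃ w : List Bool, w.length ≤ p.eval x.length ∧
      R.run A (word r T i x.length, w) = true := by
    rw [hR, Accepts, hlen]
  cases c
  · simp only [Bool.false_eq_true, false_imp_iff, true_and, true_imp_iff, hrun, if_false,
      Bool.or_eq_true, Bool.not_eq_true']
    rw [hR']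
    constructor
    · rintro (h | ⟨w, h1, h2⟩)
      · exact ⟨[], Nat.zero_le _, Or.inl h⟩
      · exact ⟨w, h1, Or.inr h2⟩
    · rintro ⟨w, h1, h | h⟩
      · exact Or.inl h
      · exact Or.inr ⟨w, h1, h⟩
  · simp only [true_imp_iff, Bool.true_eq_false, false_imp_iff, and_true, hrun, if_true,
      Bool.and_eq_true]
    rw [hR']
    constructor
    · rintro ⟨h, w, h1, h2⟩
      exact ⟨w, h1, h, h2⟩
    · rintro ⟨w, h1, h, h2⟩
      exact ⟨h, w, h1, h2⟩

/-! ## Stages -/

section

universe u v

variable {ι : Type u} {γ : Type v} (r) (sp : ℕ → ℕ) (A : Oracle) (Y Z : DecisionProblem)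
  (idx : Pr → ℕ)

/-- the block satisfies the promise, if it has a flag -/
def Prom (T : Oracle) (i n : ℕ) : Prop :=
  flag r T i n = true → (Y (word r T i n) = true ↔ ¬ Z (word r T i n) = true)

/-- the pair is invalid for all oracles agreeing with the present one -/
def DeadT (P : Pr) (s : Oracle × ℕ) : Prop := ∀ T', Agree s.2 s.1 T' → ¬ Valid P (J A T')

/-- the invariant -/
def InvT (s : Oracle × ℕ) : Prop :=
  Tally s.1 ∧ (∀ q, s.1 q = true → q.length ≤ s.2) ∧
    (∀ n, {u : List Bool | s.1 u = true ∧ u.length ≤ n}.encard ≤ sp n) ∧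
    ∀ P n, DeadT A P s ∨ Prom r Y Z s.1 (idx P) n

/-- the task is done -/
def DoneT (t : (Pr × OracleProc (List Bool) (List Bool))) (s : Oracle × ℕ) : Prop :=
  DeadT A t.1 s ∨ ∃ n, ∀ T', Agree s.2 s.1 T' →
    ¬ ((flag r T' (idx t.1) n = true ∧ Y (word r T' (idx t.1) n) = true) ↔
      Accepts t.1.1.1 t.1.1.2 (J A T') (t.2.run (J A T') (zr n)))

variable {r sp A Y Z idx}

theorem deadT_mono {P : Pr} {s s' : Oracle × ℕ} (h : DeadT A P s) (h1 : Agree s.2 s.1 s'.1)
    (h2 : s.2 ≤ s'.2) : DeadT A P s' := fun T' hT => h T' (h1.trans hT h2)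

theorem invT_mono {t : Oracle} {b b' : ℕ} (h : InvT r sp A Y Z idx (t, b)) (hb : b ≤ b') :
    InvT r sp A Y Z idx (t, b') :=
  ⟨h.1, fun q hq => (h.2.1 q hq).trans hb, h.2.2.1, fun P n => (h.2.2.2 P n).imp
    (fun h1 => deadT_mono (s := (t, b)) (s' := (t, b')) h1 (Agree.refl _ _) hb) id⟩

theorem exists_agreeT {T : Oracle} {φ : Oracle → Prop} (h : ∀ᶠ X in 𝓝 (J A T), φ X) :
    ∃ b, ∀ T', Agree b T T' → φ (J A T') := by
  obtain ⟨b, hb⟩ := exists_agree h
  exact ⟨b, fun T' hT => hb _ (agree_J hT)⟩

theorem word_agree {T T' : Oracle} {i n b : ℕ} (h : Agree b T T') (hb : base r i n + n ≤ b) :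
    flag r T' i n = flag r T i n ∧ word r T' i n = word r T i n :=
  word_congr fun k hk => h _ (by rw [un_length]; omega)

theorem prom_congr {T T' : Oracle} {i n : ℕ}
    (h : flag r T' i n = flag r T i n ∧ word r T' i n = word r T i n) (h' : Prom r Y Z T i n) :
    Prom r Y Z T' i n := by
  rw [Prom, h.1, h.2]
  exact h'

theorem stepT {n0 : ℕ} (hsp : ∀ n, n0 ≤ n → n ≤ sp n ^ r) (hE : HardPromise A Y Z) (hidx : Function.Injective idx)
    (t : Pr × OracleProc (List Bool) (List Bool)) (s : Oracle × ℕ) (hs : InvT r sp A Y Z idx s) :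
    ∃ s' : Oracle × ℕ, Agree s.2 s.1 s'.1 ∧ s.2 < s'.2 ∧ InvT r sp A Y Z idx s' ∧
      DoneT r A Y idx t s' := by
  obtain ⟨T, b⟩ := s
  by_cases hd : DeadT A t.1 (T, b)
  · exact ⟨(T, b + 1), Agree.refl _ _, Nat.lt_succ_self _, invT_mono hs (Nat.le_succ _),
      Or.inl (deadT_mono hd (Agree.refl _ _) (Nat.le_succ _))⟩
  · obtain ⟨h1, h2, hS, h3⟩ := hs
    obtain ⟨z, hz, h⟩ := offStage r A Y Z hE t.1 t.2 T (idx t.1) b (max (b + 2) n0) h2
    let i := idx t.1
    have hz1 : b + 2 ≤ z.length := (le_max_left _ _).trans hz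
    have hz2 : n0 ≤ z.length := (le_max_right _ _).trans hz
    have hb : b < base r i z.length :=
      lt_of_lt_of_le (by omega) (hz1.trans (le_base _ _))
    have hS' := add_sparse hsp h1 h2 hS i z hz1 hz2
    have hag : Agree b T (add r T i z) := agree_add _ hb
    have hself := add_self T hb h2
    have hother : ∀ P m, (P ≠ t.1 ∨ m ≠ z.length) → Prom r Y Z T (idx P) m →
        Prom r Y Z (add r T i z) (idx P) m := by
      intro P m hne hP
      refine prom_congr (add_other T ?_) hP
      rcases hne with h | h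
      · exact Or.inl fun h2 => h (hidx h2)
      · exact Or.inr h
    have hsupp : ∀ b1, ∀ q, add r T i z q = true →
        q.length ≤ max b1 (max (b + 1) (base r i z.length + z.length)) := by
      intro b1 q hq
      have h4 := add_support h2 i z q hq
      have h5 := le_max_left (b + 1) (base r i z.length + z.length)
      have h6 := le_max_right (b + 1) (base r i z.length + z.length)
      refine le_max_of_le_right (h4.trans (max_le ?_ h6))
      omega
    have hlt : ∀ b1, b < max b1 (max (b + 1) (base r i z.length + z.length)) := fun b1 =>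
      lt_of_lt_of_le (Nat.lt_succ_self _) ((le_max_left _ _).trans (le_max_right _ _))
    rcases h with h | ⟨h4, h5⟩
    · obtain ⟨b1, hb1⟩ := exists_agreeT (A := A) (T := add r T i z) (eventually_invalid h)
      have hdead : DeadT A t.1 (add r T i z, max b1 (max (b + 1) (base r i z.length + z.length))) :=
        fun T' hT' => hb1 T' (hT'.mono (le_max_left _ _))
      refine ⟨(add r T i z, max b1 (max (b + 1) (base r i z.length + z.length))), hag, hlt b1,
        ⟨add_tally h1 _ _, hsupp b1, hS', fun P m => ?_⟩, Or.inl hdead⟩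
      by_cases hP : P = t.1
      · exact Or.inl (hP ▸ hdead)
      · rcases h3 P m with h6 | h6
        · exact Or.inl (deadT_mono h6 hag (hlt b1).le)
        · exact Or.inr (hother P m (Or.inl hP) h6)
    · have hev : ∀ᶠ X in 𝓝 (J A (add r T i z)), ¬ (Y z = true ↔
          Accepts t.1.1.1 t.1.1.2 X (t.2.run X (zr z.length))) := by
        filter_upwards [eventually_run t.2 (J A (add r T i z)) (zr z.length),
          eventually_accepts t.1.1.1 t.1.1.2 (J A (add r T i z))
            (t.2.run (J A (add r T i z)) (zr z.length))] with X e1 e2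
        rw [e1, e2]
        exact h5
      obtain ⟨b1, hb1⟩ := exists_agreeT hev
      refine ⟨(add r T i z, max b1 (max (b + 1) (base r i z.length + z.length))), hag, hlt b1,
        ⟨add_tally h1 _ _, hsupp b1, hS', fun P m => ?_⟩, Or.inr ⟨z.length, fun T' hT' => ?_⟩⟩
      · by_cases hP : P = t.1 ∧ m = z.length
        · obtain ⟨rfl, rfl⟩ := hP
          refine Or.inr fun _ => ?_
          rw [hself.2]
          exact h4
        · have hP' : P ≠ t.1 ∨ m ≠ z.length := by tauto
          rcases h3 P m with h6 | h6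
          · exact Or.inl (deadT_mono h6 hag (hlt b1).le)
          · exact Or.inr (hother P m hP' h6)
      · have h6 := word_agree (i := i) (n := z.length) hT'
          ((le_max_right _ _).trans (le_max_right _ _))
        have h7 := hb1 T' (hT'.mono (le_max_left _ _))
        show ¬ ((flag r T' i z.length = true ∧ Y (word r T' i z.length) = true) ↔ _)
        rw [h6.1, h6.2, hself.1, hself.2]
        intro h8
        apply h7
        constructor
        · exact fun h9 => h8.1 ⟨rfl, h9⟩
        · exact fun h9 => (h8.2 h9).2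

/-- the value of the operator is not the given one, or it is its value at the join with a finite
tally oracle -/
def HandledT (A : Oracle) (Psi : ι → Oracle → List Bool → γ) (t : ι × (List Bool → γ))
    (s : Oracle × ℕ) : Prop :=
  (∃ u, ∀ T', Agree s.2 s.1 T' → Psi t.1 (J A T') u ≠ t.2 u) ∨
    ∃ Q : Oracle, Tally Q ∧ {q | Q q = true}.Finite ∧ Psi t.1 (J A Q) = t.2

theorem handleT {Psi : ι → Oracle → List Bool → γ}
    (hPsi : ∀ j X u, ∀ᶠ X' in 𝓝 X, Psi j X' u = Psi j X u) (t : ι × (List Bool → γ))
    (s : Oracle × ℕ) (hs : InvT r sp A Y Z idx s) : ∃ s' : Oracle × ℕ, Agree s.2 s.1 s'.1 ∧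
      s.2 < s'.2 ∧ InvT r sp A Y Z idx s' ∧ HandledT A Psi t s' := by
  obtain ⟨T, b⟩ := s
  by_cases h : Psi t.1 (J A T) = t.2
  · refine ⟨(T, b + 1), Agree.refl _ _, Nat.lt_succ_self _, invT_mono hs (Nat.le_succ _),
      Or.inr ⟨T, hs.1, ?_, h⟩⟩
    exact (List.finite_length_le Bool b).subset fun q hq => hs.2.1 q hq
  · have h1 : ∃ u, Psi t.1 (J A T) u ≠ t.2 u := by
      by_contra hcon
      push Not at hcon
      exact h (funext hcon)
    obtain ⟨u, hu⟩ := h1
    obtain ⟨b1, hb1⟩ := exists_agreeT (hPsi t.1 (J A T) u)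
    refine ⟨(T, max b1 (b + 1)), Agree.refl _ _,
      lt_of_lt_of_le (Nat.lt_succ_self _) (le_max_right _ _),
      invT_mono hs ((Nat.le_succ _).trans (le_max_right _ _)), Or.inl ⟨u, fun T' hT' => ?_⟩⟩
    rw [hb1 T' (hT'.mono (le_max_left _ _))]
    exact hu

/-- **The off-switch**: if the promise problem `(Y, Z)` is hard for NP ∩ coNP relative to `A`, then
there is a tally oracle `T` with at most `sp n` words of length at most `n`, for all `n`, such
that, relative to the join of `A` and `T`, NP ∩ coNP has no complete language, and every value in `BB` of one of the operators at this join is a value at the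
join of `A` and a finite tally oracle. -/
theorem off {n0 : ℕ} (hsp : ∀ n, n0 ≤ n → n ≤ sp n ^ r) (A : Oracle) (Y Z : DecisionProblem) (hY : Y ∈ NPo A) (hZ : Z ∈ NPo A)
    (hE : HardPromise A Y Z) [Countable ι] (Psi : ι → Oracle → List Bool → γ)
    (hPsi : ∀ j X u, ∀ᶠ X' in 𝓝 X, Psi j X' u = Psi j X u)
    (BB : Set (List Bool → γ)) (hBB : BB.Countable) :
    ∃ T : Oracle, Tally T ∧
      (∀ n, {u : List Bool | T u = true ∧ u.length ≤ n}.encard ≤ sp n) ∧
      Helper20.Cons.join A T ∉ HasCompleteRel ∧
      ∀ j, Psi j (Helper20.Cons.join A T) ∈ BB → ∃ Q : Oracle, Tally Q ∧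
        {q | Q q = true}.Finite ∧
        Psi j (Helper20.Cons.join A Q) = Psi j (Helper20.Cons.join A T) := by
  classical
  obtain ⟨idx, hidx⟩ := exists_injective_nat Pr
  have := hBB.to_subtype
  have : Nonempty ((Pr × OracleProc (List Bool) (List Bool)) ⊕ (ι × BB)) :=
    ⟨Sum.inl ⟨((OracleProc.ofFP (fun _ => true) (FP.const _), 0),
      (OracleProc.ofFP (fun _ => true) (FP.const _), 0)), OracleProc.ofFP (fun x => x) FP.id⟩⟩
  obtain ⟨e, he⟩ := exists_surjective_nat ((Pr × OracleProc (List Bool) (List Bool)) ⊕ (ι × BB))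
  -- the sequence of oracles
  let Ok : (Pr × OracleProc (List Bool) (List Bool)) ⊕ (ι × BB) → Oracle × ℕ → Prop := fun t s =>
    match t with
    | Sum.inl t => DoneT r A Y idx t s
    | Sum.inr t => HandledT A Psi (t.1, t.2.1) s
  have hstep : ∀ (k : ℕ) (s : {s : Oracle × ℕ // InvT r sp A Y Z idx s}),
      ∃ s' : {s : Oracle × ℕ // InvT r sp A Y Z idx s},
      Agree s.1.2 s.1.1 s'.1.1 ∧ s.1.2 < s'.1.2 ∧ Ok (e k) s'.1 := by
    rintro k ⟨s, hs⟩
    rcases hek : e k with t | t
    · obtain ⟨s', h1, h2, h3, h4⟩ := stepT hsp hE hidx t s hs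
      exact ⟨⟨s', h3⟩, h1, h2, h4⟩
    · obtain ⟨s', h1, h2, h3, h4⟩ := handleT hPsi (t.1, t.2.1) s hs
      exact ⟨⟨s', h3⟩, h1, h2, h4⟩
  choose nxt hn1 hn2 hn3 using hstep
  have hinit : InvT r sp A Y Z idx ((fun _ => false), 0) :=
    ⟨fun u (hu : false = true) => absurd hu (by decide),
      fun q (hq : false = true) => absurd hq (by decide), fun n => by simp,
      fun P n => Or.inr fun (h : false = true) => absurd h (by decide)⟩
  let S : ℕ → {s : Oracle × ℕ // InvT r sp A Y Z idx s} := fun k =>
    Nat.rec ⟨_, hinit⟩ (fun k s => nxt k s) k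
  have hS : ∀ k, S (k + 1) = nxt k (S k) := fun k => rfl
  have hb : ∀ k, k ≤ (S k).1.2 := by
    intro k
    induction k with
    | zero => exact Nat.zero_le _
    | succ k ih => rw [hS]; exact lt_of_le_of_lt ih (hn2 _ _)
  have hbm : ∀ k m, k ≤ m → (S k).1.2 ≤ (S m).1.2 ∧ Agree (S k).1.2 (S k).1.1 (S m).1.1 := by
    intro k m hkm
    induction m, hkm using Nat.le_induction with
    | base => exact ⟨le_rfl, Agree.refl _ _⟩
    | succ m hkm ih =>
      rw [hS]
      exact ⟨ih.1.trans (hn2 _ _).le, ih.2.trans (hn1 _ _) ih.1⟩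
  let T : Oracle := fun w => (S w.length).1.1 w
  have hT : ∀ k, Agree (S k).1.2 (S k).1.1 T := by
    intro k w hw
    show (S w.length).1.1 w = (S k).1.1 w
    rcases le_total k w.length with h | h
    · exact (hbm _ _ h).2 w hw
    · exact ((hbm _ _ h).2 w (hb _)).symm
  refine ⟨T, fun u hu => (S u.length).2.1 u hu, fun n => ?_, ?_, ?_⟩
  · refine le_trans (Set.encard_le_encard ?_) ((S n).2.2.2.1 n)
    rintro u ⟨h1, h2⟩
    refine ⟨?_, h2⟩
    rw [← hT n u (h2.trans (hb n))]
    exact h1
  swap
  · intro j hj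
    obtain ⟨k, hk⟩ := he (Sum.inr (j, ⟨Psi j (Helper20.Cons.join A T), hj⟩))
    have hTk := hT (k + 1)
    have h3 : HandledT A Psi (j, Psi j (Helper20.Cons.join A T)) (S (k + 1)).1 := by
      have h4 := hn3 k (S k)
      rw [hk] at h4
      exact h4
    rcases h3 with ⟨u, h3⟩ | h3
    · exact absurd rfl (h3 T hTk)
    · exact h3
  rintro ⟨L, ⟨⟨p1, M1, h1⟩, ⟨p2, M2, h2⟩⟩, hL⟩
  let P : Pr := ((M1, p1), (M2, p2))
  have hv : Valid P (J A T) := fun z => by
    show Accepts M1 p1 (J A T) z ↔ ¬ Accepts M2 p2 (J A T) z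
    rw [← h1, ← h2, compl_true, not_not]
  have hprom : ∀ n, Prom r Y Z T (idx P) n := by
    intro n
    have h3 := (S (base r (idx P) n + n)).2.2.2.2 P n
    have hTk := hT (base r (idx P) n + n)
    rcases h3 with h3 | h3
    · exact absurd hv (h3 T hTk)
    · exact prom_congr (word_agree hTk (hb _)) h3
  let D : DecisionProblem := fun x =>
    flag r T (idx P) x.length && Y (word r T (idx P) x.length)
  have hD : D ∈ NPo (J A T) ∩ coNPo (J A T) := by
    constructor
    · refine mem_track (r := r) A T (idx P) true hY D fun x => ?_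
      simp [D]
    · refine mem_track (r := r) A T (idx P) false hZ Dᶜ fun x => ?_
      rw [compl_true]
      simp only [D, Bool.and_eq_true, Bool.false_eq_true, false_imp_iff, true_and, true_imp_iff]
      cases hf : flag r T (idx P) x.length
      · simp
      · have h3 := hprom x.length hf
        simp only [true_and, Bool.true_eq_false, false_or]
        rw [h3, not_not]
  obtain ⟨f, hf⟩ := hL D hD
  obtain ⟨k, hk⟩ := he (Sum.inl (P, f))
  have hTk := hT (k + 1)
  have h3 : DoneT r A Y idx (P, f) (S (k + 1)).1 := by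
    have h4 := hn3 k (S k)
    rw [hk] at h4
    exact h4
  rcases h3 with h3 | ⟨n, h3⟩
  · exact h3 T hTk hv
  · have h4 := h3 T hTk
    apply h4
    have h5 : (flag r T (idx P) (zr n).length && Y (word r T (idx P) (zr n).length)) =
      L (f.run (J A T) (zr n)) := hf (zr n)
    rw [zr_length] at h5
    show (flag r T (idx P) n = true ∧ Y (word r T (idx P) n) = true) ↔
      Accepts M1 p1 (J A T) (f.run (J A T) (zr n))
    rw [← h1, ← h5, Bool.and_eq_true]

end

end Pool.Agent.Helper8.SipS
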