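import Mathlib
import Pool.Agent.Helper8.SipS.Off
import Pool.Agent.Helper8.Sip.OffAll
import Pool.Agent.Helper49.Cons.Trans

set_option autoImplicit false

/-!
# The off-switch for all classes at once
-/

namespace Pool.Agent.Helper8.SipS

open Pool.Agent.Helper22 N487b59b3 N68a2faeb N793a5b8e Filter Topology
open Pool.Agent.Helper20.Cons Pool.Agent.Helper49.Cons
open Pool.Agent.Helper8.Sip

/-- **The off-switch for all classes at once**, by a sparse tally oracle. -/
theorem off_all {r n0 : ℕ} {sp : ℕ → ℕ} (hsp : ∀ n, n0 ≤ n → n ≤ sp n ^ r) (A : Oracle) (Y Z : DecisionProblem) (hY : Y ∈ NPo A) (hZ : Z ∈ NPo A)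
    (hE : HardPromise A Y Z) {ι : Type} [Countable ι] (Φ : ι → Acc)
    {κ : Type} [Countable κ] (Ψ : κ → Oracle → List Bool → Option Bool)
    (hΨ : ∀ e, LocConst (Ψ e)) (BB : Set (List Bool → Option Bool)) (hBB : BB.Countable) :
    ∃ T : Oracle, Tally T ∧
      (∀ n, {u : List Bool | T u = true ∧ u.length ≤ n}.encard ≤ sp n) ∧
      Helper20.Cons.join A T ∉ HasCompleteRel ∧
      (∀ e, Ψ e (Helper20.Cons.join A T) ∈ BB → ∃ Q : Oracle, Tally Q ∧
        {q | Q q = true}.Finite ∧ Ψ e (Helper20.Cons.join A Q) = Ψ e (Helper20.Cons.join A T)) ∧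
      (∀ i j, Cls (Φ i) (Helper20.Cons.join A T) ⊆ Cls (Φ j) (Helper20.Cons.join A T) →
        Cls (Φ i) A ⊆ Cls (Φ j) A) ∧
      (∀ i j, (Φ i).Syntactic → Cls (Φ i) A ⊆ Cls (Φ j) A →
        Cls (Φ i) (Helper20.Cons.join A T) ⊆ Cls (Φ j) (Helper20.Cons.join A T)) := by
  -- all operators
  let E : Type := κ ⊕ (ι × OracleProc (List Bool) (List Bool) ×
    OracleProc (List Bool × List (List Bool)) Bool)
  let Ω : E → Oracle → List Bool → Option Bool
    | .inl e => Ψ e
    | .inr c => verdict (Φ c.1) c.2.1 c.2.2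
  have hΩ : ∀ e, LocConst (Ω e) := by
    rintro (e | c)
    · exact hΨ e
    · exact verdict_locConst _ _ _
  have hEc : Countable E := by
    have : Countable (κ ⊕ (ι × OracleProc (List Bool) (List Bool) ×
      OracleProc (List Bool × List (List Bool)) Bool)) := inferInstance
    exact this
  -- all values
  let BB' : Set (List Bool → Option Bool) :=
    BB ∪ ⋃ i, (fun (L : DecisionProblem) x => some (L x)) '' Cls (Φ i) A
  have hBB' : BB'.Countable := by
    refine hBB.union (Set.countable_iUnion fun i => ?_)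
    exact (cls_countable _ _).image _
  obtain ⟨T, hT, hsT, hno, hcons⟩ := off hsp A Y Z hY hZ hE Ω (fun e X u => hΩ e X u) BB' hBB'
  refine ⟨T, hT, hsT, hno, fun e he => hcons (.inl e) (Or.inl he),
    fun i j h => cls_descend _ _ h fun g M L hL hLv => ?_, fun i j hi h => cls_transfer _ _ hi hT h⟩
  obtain ⟨Q, -, hQ, hQ'⟩ := hcons (.inr (j, g, M)) (by
    refine Or.inr (Set.mem_iUnion.2 ⟨i, L, hL, ?_⟩)
    exact hLv.symm)
  exact ⟨Q, (isPolyTime_iff _).2 (FP_of_finite hQ), hQ'⟩

end Pool.Agent.Helper8.SipS
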