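import Mathlib
import Pool.Agent.Helper8.Sip.Adv
import Pool.Agent.Helper49.Cons.Alt

set_option autoImplicit false

/-!
# Conservative sparse tally oracles: definition
-/

namespace Pool.Agent.Helper8.SipS

open Pool.Agent.Helper22 N487b59b3 N68a2faeb N793a5b8e
open Pool.Agent.Helper20.Cons Pool.Agent.Helper49.Cons
open Pool.Agent.Helper8.Sip (PPoly)

/-- The tally oracle `T` has at most `s n` words of length at most `n`, for all `n` and, added to
the oracle `A`, changes nothing but the classes with a promise:
* the operators `Ψ e` take no new value in `BB` at `join A T`: each such value is already taken at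
  `join A Q` for a finite tally set `Q`;
* an inclusion between two classes of the family `Φ` that holds relative to `join A T` holds
  relative to `A` (no separation is lost), and conversely if the smaller class is syntactic;
* the levels of the polynomial hierarchy satisfy exactly the same inclusions as relative to `A`;
* P/poly is the same class (every lower bound for circuits persists). -/
structure Conservative (A T : Oracle) (s : ℕ → ℕ) {ι κ : Type} (Φ : ι → Acc)
    (Ψ : κ → Oracle → List Bool → Option Bool) (BB : Set (List Bool → Option Bool)) : Prop where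
  tally : Tally T
  sparse : ∀ n, {u : List Bool | T u = true ∧ u.length ≤ n}.encard ≤ s n
  values : ∀ e, Ψ e (join A T) ∈ BB → ∃ Q : Oracle, Tally Q ∧ {u | Q u = true}.Finite ∧
    Ψ e (join A Q) = Ψ e (join A T)
  separations : ∀ i j, Cls (Φ i) (join A T) ⊆ Cls (Φ j) (join A T) → Cls (Φ i) A ⊆ Cls (Φ j) A
  inclusions : ∀ i j, (Φ i).Syntactic → Cls (Φ i) A ⊆ Cls (Φ j) A →
    Cls (Φ i) (join A T) ⊆ Cls (Φ j) (join A T)
  hierarchy : ∀ k b k' b', AltP (join A T) k b ⊆ AltP (join A T) k' b' ↔
    AltP A k b ⊆ AltP A k' b'
  circuits : PPoly (join A T) = PPoly A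

end Pool.Agent.Helper8.SipS
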